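import Pool.Agent.Run7.h630.QF.Iface
import Pool.Agent.Run7.h105.QC.Q1

/-!
# R4b: the oscillations of the waves
-/

set_option linter.unusedSectionVars false
set_option linter.unusedVariables false
set_option linter.style.haveILetI false

open MeasureTheory Matrix Filter Topology
open scoped Matrix.Norms.Frobenius ComplexConjugate

namespace Run7.h4.QF

open Run7.h4.YM Run7.h630.WL Run7.h630.MQ Run7.h630.QC Run7.h630.ML Run7.h630.QF

noncomputable section

section root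

lemma root_sep {ζ : ℂ} {M : ℕ} (hM : 0 < M) (h1 : ζ ^ M = 1) (hne : ζ ≠ 1) (hn : ‖ζ‖ = 1) :
    1 ≤ M * ‖1 - ζ‖ := by
  have h2 : ∀ t : ℕ, ‖1 - ζ ^ t‖ ≤ t * ‖1 - ζ‖ := by
    intro t
    induction t with
    | zero => simp
    | succ t ih =>
      have e : 1 - ζ ^ (t + 1) = (1 - ζ ^ t) + ζ ^ t * (1 - ζ) := by ring
      rw [e]
      refine (norm_add_le _ _).trans ?_
      rw [norm_mul, norm_pow, hn, one_pow, one_mul]
      push_cast
      linarith
  have h3 : ∑ t ∈ Finset.range M, ζ ^ t = 0 := by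
    have := mul_neg_geom_sum ζ M
    rw [h1, sub_self] at this
    exact (mul_eq_zero.1 this).resolve_left (sub_ne_zero.2 hne.symm)
  have h4 : (M : ℂ) = ∑ t ∈ Finset.range M, (1 - ζ ^ t) := by
    rw [Finset.sum_sub_distrib, h3]
    simp
  have h5 : (M : ℝ) ≤ M * (M * ‖1 - ζ‖) := by
    calc (M : ℝ) = ‖(M : ℂ)‖ := by simp
      _ = ‖∑ t ∈ Finset.range M, (1 - ζ ^ t)‖ := by rw [← h4]
      _ ≤ ∑ t ∈ Finset.range M, (M * ‖1 - ζ‖) := by
        refine norm_sum_le_of_le _ fun t ht => (h2 t).trans ?_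
        have : (t : ℝ) ≤ M := by exact_mod_cast (Finset.mem_range.1 ht).le
        exact mul_le_mul_of_nonneg_right this (norm_nonneg _)
      _ = M * (M * ‖1 - ζ‖) := by simp
  have hM' : (0 : ℝ) < M := by exact_mod_cast hM
  nlinarith

end root

section waves

variable {N n L l : ℕ} [NeZero N] [NeZero n] [NeZero L] [NeZero l]

/-- the phase of the wave -/
def ek (N k l : ℕ) (ι : Ix N) (i : Fin 4) : ℂ :=
  Complex.exp (Complex.I * ((mom N k ι i / l : ℝ) : ℂ))

lemma norm_ek (k : ℕ) (ι : Ix N) (i : Fin 4) : ‖ek N k l ι i‖ = 1 := by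
  unfold ek
  rw [mul_comm]
  exact Complex.norm_exp_ofReal_mul_I _

lemma norm_wave (k : ℕ) (ι : Ix N) (y : ZMod l × ZMod l) : ‖wave N k l ι y‖ = 1 := by
  unfold wave
  rw [mul_comm]
  exact Complex.norm_exp_ofReal_mul_I _

lemma val_p {y : ZMod l} (h : y ≠ 0) : (y + 1 - 1).val = (y - 1).val + 1 := by
  have h0 : 0 < y.val := Nat.pos_of_ne_zero fun h' => h ((ZMod.val_eq_zero y).1 h')
  have h1 : y - 1 = ((y.val - 1 : ℕ) : ZMod l) := by
    rw [Nat.cast_sub (by omega), ZMod.natCast_zmod_val]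
    simp
  have h2 : y.val < l := ZMod.val_lt y
  rw [add_sub_cancel_right, h1, ZMod.val_natCast_of_lt (by omega)]
  omega

lemma val_q : ((0 : ZMod l) - 1).val + 1 = l := by
  obtain ⟨m, rfl⟩ : ∃ m, l = m + 1 := ⟨l - 1, by have := NeZero.pos l; omega⟩
  rw [zero_sub, ZMod.val_neg_one]

lemma norm_rh' (k : ℕ) (α : Col N) (x : Site n L l) (j : Fin 4) : ‖rh k α x j‖ = 1 := by
  rw [Run7.h105.QC.rh_eq, norm_mul, norm_pow, norm_pow, Run7.h105.QC.r2_norm,
    Run7.h105.QC.r3_norm, one_pow, one_pow, one_mul]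

lemma om_mom2 (k : ℕ) (ι : Ix N) :
    conj (om N k) ^ (ι.1.2 : ℕ) = Complex.exp (Complex.I * (mom N k ι 2 : ℂ)) := by
  have hN : (N : ℂ) ≠ 0 := by exact_mod_cast NeZero.ne N
  have e1 : conj (om N k) = Complex.exp (-(2 * Real.pi * Complex.I * (k / N))) := by
    unfold om
    rw [← Complex.exp_conj]
    congr 1
    simp only [map_mul, map_div₀, Complex.conj_I, Complex.conj_ofReal, map_natCast, map_ofNat]
    ring
  rw [e1, ← Complex.exp_nat_mul]
  have e2 : Complex.I * (mom N k ι 2 : ℂ) =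
      ((ι.1.2 : ℕ) : ℂ) * -(2 * Real.pi * Complex.I * (k / N)) +
        (ι.2.1 : ℂ) * (2 * Real.pi * Complex.I) := by
    simp [mom]
    ring
  rw [e2, Complex.exp_add, Complex.exp_int_mul_two_pi_mul_I, mul_one]

lemma om_mom3 (k : ℕ) (ι : Ix N) :
    om N k ^ (ι.1.1 : ℕ) = Complex.exp (Complex.I * (mom N k ι 3 : ℂ)) := by
  have hN : (N : ℂ) ≠ 0 := by exact_mod_cast NeZero.ne N
  unfold om
  rw [← Complex.exp_nat_mul]
  have e2 : Complex.I * (mom N k ι 3 : ℂ) =
      ((ι.1.1 : ℕ) : ℂ) * (2 * Real.pi * Complex.I * (k / N)) +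
        (ι.2.2 : ℂ) * (2 * Real.pi * Complex.I) := by
    simp [mom]
    ring
  rw [e2, Complex.exp_add, Complex.exp_int_mul_two_pi_mul_I, mul_one]

/-- the wave in the next point -/
lemma wave_shift (k : ℕ) (ι : Ix N) (x : Site n L l) (i : Fin 4) :
    rh k ι.1 x i * wave N k l ι (x + dir i).2.2 = ek N k l ι i * wave N k l ι x.2.2 := by
  have hl : (l : ℂ) ≠ 0 := by exact_mod_cast NeZero.ne l
  have hN : (N : ℂ) ≠ 0 := by exact_mod_cast NeZero.ne N
  obtain ⟨a, b, c, d⟩ := x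
  fin_cases i
  · simp [rh, ek, mom, dir]
  · simp [rh, ek, mom, dir]
  · have e0 : (((a, b, c, d) : Site n L l) + dir 2).2.2 = (c + 1, d) := by simp [dir]
    simp only [Fin.reduceFinMk, e0]
    unfold rh
    by_cases hc : c = 0
    · subst hc
      rw [if_pos ⟨rfl, rfl⟩, om_mom2]
      unfold wave ek
      rw [← Complex.exp_add, ← Complex.exp_add]
      congr 1
      have h1 : (((0 : ZMod l) - 1).val : ℂ) = l - 1 := by
        have := val_q (l := l)
        rw [eq_sub_iff_add_eq]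
        exact_mod_cast this
      have h2 : (((0 : ZMod l) + 1 - 1).val : ℂ) = 0 := by simp
      push_cast
      simp only [h1, h2]
      field_simp
      ring
    · rw [if_neg (by simp [hc]), if_neg (by simp), one_mul]
      unfold wave ek
      rw [← Complex.exp_add]
      congr 1
      simp only [val_p hc]
      push_cast
      field_simp
      ring
  · have e0 : (((a, b, c, d) : Site n L l) + dir 3).2.2 = (c, d + 1) := by simp [dir]
    simp only [Fin.reduceFinMk, e0]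
    unfold rh
    by_cases hc : d = 0
    · subst hc
      rw [if_neg (by simp), if_pos ⟨rfl, rfl⟩, om_mom3]
      unfold wave ek
      rw [← Complex.exp_add, ← Complex.exp_add]
      congr 1
      have h1 : (((0 : ZMod l) - 1).val : ℂ) = l - 1 := by
        have := val_q (l := l)
        rw [eq_sub_iff_add_eq]
        exact_mod_cast this
      have h2 : (((0 : ZMod l) + 1 - 1).val : ℂ) = 0 := by simp
      push_cast
      simp only [h1, h2]
      field_simp
      ring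
    · rw [if_neg (by simp), if_neg (by simp [hc]), one_mul]
      unfold wave ek
      rw [← Complex.exp_add]
      congr 1
      simp only [val_p hc]
      push_cast
      field_simp
      ring

/-- the trace of the product of two dressings -/
def TT (U : Link n L l → SU N) (α α' : Col N) (x : Site n L l) : ℂ :=
  trace ((Dr α U x).1 * (Dr α' U x).1)

lemma TT_shift (k : ℕ) (q : ZMod n × ZMod L → ZMod N) (U : Link n L l → SU N) (α α' : Col N)
    (x : Site n L l) (j : Fin 4) :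
    ‖TT U α α' (x + dir j) - rh k α x j * rh k α' x j * TT U α α' x‖ ≤
      4 * N ^ 2 * l * ss k q U := by
  have h1 := Run7.h105.QC.t_Q1 N n L l k q U α x j
  have h2 := Run7.h105.QC.t_Q1 N n L l k q U α' x j
  have e1 : (U (j, x)).1 * (Dr α U (x + dir j)).1 * (U (j, x)).1ᴴ =
    (U (j, x) * Dr α U (x + dir j) * (U (j, x))⁻¹).1 := rfl
  have e2 : (U (j, x)).1 * (Dr α' U (x + dir j)).1 * (U (j, x)).1ᴴ =
    (U (j, x) * Dr α' U (x + dir j) * (U (j, x))⁻¹).1 := rfl
  rw [e1] at h1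
  rw [e2] at h2
  have h3 := Run7.h105.QC.apx_mul (norm_rh' k α x j) h1 h2
  have h4 := (Run7.h370.MQ.norm_tr_le _).trans (mul_le_mul_of_nonneg_left h3 (Nat.cast_nonneg N))
  have e3 : U (j, x) * Dr α U (x + dir j) * (U (j, x))⁻¹ *
      (U (j, x) * Dr α' U (x + dir j) * (U (j, x))⁻¹) =
      U (j, x) * (Dr α U (x + dir j) * Dr α' U (x + dir j)) * (U (j, x))⁻¹ := by group
  have e4 : trace (U (j, x) * (Dr α U (x + dir j) * Dr α' U (x + dir j)) * (U (j, x))⁻¹).1 =
      TT U α α' (x + dir j) := by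
    have : (U (j, x) * (Dr α U (x + dir j) * Dr α' U (x + dir j)) * (U (j, x))⁻¹).1 =
      (U (j, x)).1 * ((Dr α U (x + dir j)).1 * (Dr α' U (x + dir j)).1) * ((U (j, x))⁻¹).1 :=
        rfl
    rw [this, trace_mul_comm, ← Matrix.mul_assoc]
    have h5 : ((U (j, x))⁻¹).1 * (U (j, x)).1 = 1 := by
      have : ((U (j, x))⁻¹ * U (j, x)).1 = (1 : SU N).1 := by rw [inv_mul_cancel]
      exact this
    rw [h5, one_mul]
    rfl
  rw [e3, trace_sub, e4, trace_smul, smul_eq_mul] at h4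
  refine h4.trans (le_of_eq ?_)
  ring

/-- the oscillating function -/
def Gw (k : ℕ) (U : Link n L l → SU N) (ι ι' : Ix N) (x : Site n L l) : ℂ :=
  wave N k l ι x.2.2 * wave N k l ι' x.2.2 * TT U ι.1 ι'.1 x

lemma Gw_shift (k : ℕ) (q : ZMod n × ZMod L → ZMod N) (U : Link n L l → SU N) (ι ι' : Ix N)
    (x : Site n L l) (j : Fin 4) :
    ‖Gw k U ι ι' (x + dir j) - ek N k l ι j * ek N k l ι' j * Gw k U ι ι' x‖ ≤
      4 * N ^ 2 * l * ss k q U := by
  have h1 := wave_shift k ι x j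
  have h2 := wave_shift k ι' x j
  have e : Gw k U ι ι' (x + dir j) - ek N k l ι j * ek N k l ι' j * Gw k U ι ι' x =
      wave N k l ι (x + dir j).2.2 * wave N k l ι' (x + dir j).2.2 *
        (TT U ι.1 ι'.1 (x + dir j) - rh k ι.1 x j * rh k ι'.1 x j * TT U ι.1 ι'.1 x) := by
    unfold Gw
    linear_combination -(wave N k l ι' x.2.2 * ek N k l ι' j * TT U ι.1 ι'.1 x) * (-h1) +
      (rh k ι.1 x j * wave N k l ι (x + dir j).2.2) * TT U ι.1 ι'.1 x * h2
  rw [e, norm_mul, norm_mul, norm_wave, norm_wave, one_mul, one_mul]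
  exact TT_shift k q U _ _ x j

/-- the sum of two momenta is a multiple of `2 π / N` -/
lemma mom_add (k : ℕ) (ι ι' : Ix N) (i : Fin 4) : ∃ z : ℤ,
    mom N k ι i + mom N k ι' i = 2 * Real.pi * z / N := by
  have hN : (N : ℝ) ≠ 0 := by exact_mod_cast NeZero.ne N
  fin_cases i
  · exact ⟨0, by simp [mom]⟩
  · exact ⟨0, by simp [mom]⟩
  · refine ⟨N * (ι.2.1 + ι'.2.1) - k * ((ι.1.2 : ℕ) + (ι'.1.2 : ℕ)), ?_⟩
    simp only [mom, Fin.reduceFinMk, Matrix.cons_val]
    push_cast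
    field_simp
    ring
  · refine ⟨N * (ι.2.2 + ι'.2.2) + k * ((ι.1.1 : ℕ) + (ι'.1.1 : ℕ)), ?_⟩
    simp only [mom, Fin.reduceFinMk, Matrix.cons_val]
    push_cast
    field_simp
    ring

lemma ek_sep (k : ℕ) (ι ι' : Ix N) (i : Fin 4) (h0 : 0 < mom N k ι i + mom N k ι' i)
    (h1 : mom N k ι i + mom N k ι' i < 2 * Real.pi * l) :
    1 ≤ (N * l : ℕ) * ‖1 - ek N k l ι i * ek N k l ι' i‖ := by
  have hl : (0 : ℝ) < l := by exact_mod_cast NeZero.pos l
  have hN : (0 : ℝ) < N := by exact_mod_cast NeZero.pos N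
  have hlc : (l : ℂ) ≠ 0 := by exact_mod_cast NeZero.ne l
  have hNc : (N : ℂ) ≠ 0 := by exact_mod_cast NeZero.ne N
  have e : ek N k l ι i * ek N k l ι' i =
      Complex.exp (Complex.I * (((mom N k ι i + mom N k ι' i) / l : ℝ) : ℂ)) := by
    unfold ek
    rw [← Complex.exp_add]
    congr 1
    push_cast
    ring
  refine root_sep (Nat.mul_pos (NeZero.pos N) (NeZero.pos l)) ?_ ?_ ?_
  · obtain ⟨z, hz⟩ := mom_add k ι ι' i
    rw [e, ← Complex.exp_nat_mul, hz]
    have : (((N * l : ℕ) : ℂ)) * (Complex.I * (((2 * Real.pi * z / N / l : ℝ)) : ℂ)) =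
        z * (2 * Real.pi * Complex.I) := by
      push_cast
      field_simp
    rw [this, Complex.exp_int_mul_two_pi_mul_I]
  · rw [e]
    intro h
    rw [Complex.exp_eq_one_iff] at h
    obtain ⟨z, hz⟩ := h
    have h2 : (((mom N k ι i + mom N k ι' i) / l : ℝ) : ℂ) = ((z * (2 * Real.pi) : ℝ) : ℂ) := by
      have h3 : Complex.I * (((mom N k ι i + mom N k ι' i) / l : ℝ) : ℂ) =
          Complex.I * ((z * (2 * Real.pi) : ℝ) : ℂ) := by
        rw [hz]
        push_cast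
        ring
      exact mul_left_cancel₀ Complex.I_ne_zero h3
    have h4 : (mom N k ι i + mom N k ι' i) / l = z * (2 * Real.pi) := by exact_mod_cast h2
    have h5 : 0 < (mom N k ι i + mom N k ι' i) / l := div_pos h0 hl
    have h6 : (mom N k ι i + mom N k ι' i) / l < 2 * Real.pi := by
      rw [div_lt_iff₀ hl]
      exact h1
    rw [h4] at h5 h6
    have hpi := Real.pi_pos
    have h7 : (0 : ℝ) < z := by
      by_contra hc
      push Not at hc
      nlinarith
    have h8 : (z : ℝ) < 1 := by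
      by_contra hc
      push Not at hc
      nlinarith
    have h9 : (0 : ℤ) < z := by exact_mod_cast h7
    have h10 : z < (1 : ℤ) := by exact_mod_cast h8
    omega
  · rw [norm_mul, norm_ek, norm_ek, one_mul]

/-- the sum over the fibre is small -/
lemma fib_le (k : ℕ) (q : ZMod n × ZMod L → ZMod N) (U : Link n L l → SU N)
    {J : Finset (Ix N)} (hJ : Half N k J) (hS : Sml N k l J) {ι ι' : Ix N} (hi : ι ∈ J)
    (hi' : ι' ∈ J) (a : ZMod n) (b : ZMod L) :
    ‖∑ y : ZMod l × ZMod l, Gw k U ι ι' (a, b, y)‖ ≤ 4 * N ^ 3 * l ^ 4 * ss k q U := by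
  have hl : (0 : ℝ) < l := by exact_mod_cast NeZero.pos l
  have hN : (0 : ℝ) < N := by exact_mod_cast NeZero.pos N
  have key : ∀ (j : Fin 4) (v : ZMod l × ZMod l), (dir j : Site n L l) = (0, 0, v) →
      0 < mom N k ι j + mom N k ι' j → mom N k ι j + mom N k ι' j < 2 * Real.pi * l →
      ‖∑ y : ZMod l × ZMod l, Gw k U ι ι' (a, b, y)‖ ≤ 4 * N ^ 3 * l ^ 4 * ss k q U := by
    intro j v hv h0 h1
    have h2 := ek_sep (l := l) k ι ι' j h0 h1
    have h3 : ∑ y : ZMod l × ZMod l, Gw k U ι ι' (a, b, y + v) =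
        ∑ y : ZMod l × ZMod l, Gw k U ι ι' (a, b, y) :=
      Equiv.sum_comp (Equiv.addRight v) fun y => Gw k U ι ι' (a, b, y)
    have h4 : (1 - ek N k l ι j * ek N k l ι' j) *
        ∑ y : ZMod l × ZMod l, Gw k U ι ι' (a, b, y) =
        ∑ y : ZMod l × ZMod l, (Gw k U ι ι' ((a, b, y) + dir j) -
          ek N k l ι j * ek N k l ι' j * Gw k U ι ι' (a, b, y)) := by
      rw [Finset.sum_sub_distrib, ← Finset.mul_sum]
      have h5 : ∀ y : ZMod l × ZMod l, ((a, b, y) : Site n L l) + dir j = (a, b, y + v) := by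
        intro y
        rw [hv]
        simp
      simp only [h5]
      rw [h3]
      ring
    have h5 : ‖1 - ek N k l ι j * ek N k l ι' j‖ *
        ‖∑ y : ZMod l × ZMod l, Gw k U ι ι' (a, b, y)‖ ≤ l ^ 2 * (4 * N ^ 2 * l * ss k q U) := by
      rw [← norm_mul, h4]
      refine (norm_sum_le_of_le _ fun y _ => Gw_shift k q U ι ι' (a, b, y) j).trans (le_of_eq ?_)
      rw [Finset.sum_const, Finset.card_univ, Fintype.card_prod, ZMod.card, nsmul_eq_mul]
      push_cast
      ring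
    push_cast at h2
    have h6 : 0 ≤ ‖∑ y : ZMod l × ZMod l, Gw k U ι ι' (a, b, y)‖ := norm_nonneg _
    calc ‖∑ y : ZMod l × ZMod l, Gw k U ι ι' (a, b, y)‖
        ≤ (N * l * ‖1 - ek N k l ι j * ek N k l ι' j‖) *
          ‖∑ y : ZMod l × ZMod l, Gw k U ι ι' (a, b, y)‖ := le_mul_of_one_le_left h6 h2
      _ = (N * l) * (‖1 - ek N k l ι j * ek N k l ι' j‖ *
          ‖∑ y : ZMod l × ZMod l, Gw k U ι ι' (a, b, y)‖) := by ring
      _ ≤ (N * l) * (l ^ 2 * (4 * N ^ 2 * l * ss k q U)) :=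
        mul_le_mul_of_nonneg_left h5 (by positivity)
      _ = 4 * N ^ 3 * l ^ 4 * ss k q U := by ring
  have s1 := hS ι hi
  have s2 := hS ι' hi'
  rw [abs_lt, abs_lt] at s1 s2
  have d2 : (dir 2 : Site n L l) = (0, 0, (1, 0)) := rfl
  have d3 : (dir 3 : Site n L l) = (0, 0, (0, 1)) := rfl
  rcases (hJ ι hi).2 with h | ⟨h, h'⟩ <;> rcases (hJ ι' hi').2 with g | ⟨g, g'⟩
  · exact key 2 _ d2 (by linarith) (by linarith [s1.1.2, s2.1.2])
  · exact key 2 _ d2 (by linarith) (by linarith [s1.1.2, s2.1.2])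
  · exact key 2 _ d2 (by linarith) (by linarith [s1.1.2, s2.1.2])
  · exact key 3 _ d3 (by linarith) (by linarith [s1.2.2, s2.2.2])

/-- sums against functions of the base point -/
lemma base_le (k : ℕ) (q : ZMod n × ZMod L → ZMod N) (U : Link n L l → SU N)
    {J : Finset (Ix N)} (hJ : Half N k J) (hS : Sml N k l J) {ι ι' : Ix N} (hi : ι ∈ J)
    (hi' : ι' ∈ J) (g : ZMod n × ZMod L → ℂ) (B : ℝ) (hg : ∀ u, ‖g u‖ ≤ B) :
    ‖∑ x : Site n L l, g (x.1, x.2.1) * Gw k U ι ι' x‖ ≤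
      n * L * (B * (4 * N ^ 3 * l ^ 4 * ss k q U)) := by
  rw [Fintype.sum_prod_type]
  have h1 : ∀ a : ZMod n, ∑ y : ZMod L × ZMod l × ZMod l,
      g (((a, y) : Site n L l).1, ((a, y) : Site n L l).2.1) * Gw k U ι ι' (a, y) =
      ∑ b : ZMod L, g (a, b) * ∑ y : ZMod l × ZMod l, Gw k U ι ι' (a, b, y) := by
    intro a
    rw [Fintype.sum_prod_type]
    refine Finset.sum_congr rfl fun b _ => ?_
    rw [Finset.mul_sum]
  rw [Finset.sum_congr rfl fun a _ => h1 a]
  have h2 : ∀ (a : ZMod n) (b : ZMod L), ‖g (a, b) * ∑ y : ZMod l × ZMod l,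
      Gw k U ι ι' (a, b, y)‖ ≤ B * (4 * N ^ 3 * l ^ 4 * ss k q U) := by
    intro a b
    rw [norm_mul]
    exact mul_le_mul (hg _) (fib_le k q U hJ hS hi hi' a b) (norm_nonneg _)
      ((norm_nonneg _).trans (hg (a, b)))
  refine (norm_sum_le_of_le _ fun a _ => norm_sum_le_of_le _ fun b _ => h2 a b).trans
    (le_of_eq ?_)
  rw [Finset.sum_const, Finset.sum_const, Finset.card_univ, Finset.card_univ, ZMod.card,
    ZMod.card, nsmul_eq_mul, nsmul_eq_mul]
  ring

/-- the pairing of the modes `ι`, `ι'` -/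
def EE (k : ℕ) (U : Link n L l → SU N) (h w : ZMod n × ZMod L → ℂ) (m : Fin 4) (ι ι' : Ix N)
    (x : Site n L l) : ℂ :=
  conj (ek N k l ι m) * (h (x.1, x.2.1) * w ((x + dir m).1, (x + dir m).2.1) *
    Gw k U ι ι' (x + dir m)) - h (x.1, x.2.1) * w (x.1, x.2.1) * Gw k U ι ι' x

lemma EE_le (k : ℕ) (q : ZMod n × ZMod L → ZMod N) (U : Link n L l → SU N)
    {J : Finset (Ix N)} (hJ : Half N k J) (hS : Sml N k l J) {ι ι' : Ix N} (hi : ι ∈ J)
    (hi' : ι' ∈ J) (h w : ZMod n × ZMod L → ℂ) (m : Fin 4) (M M' : ℝ) (hh : ∀ u, ‖h u‖ ≤ M)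
    (hw : ∀ u, ‖w u‖ ≤ M') :
    ‖∑ x : Site n L l, EE k U h w m ι ι' x‖ ≤
      2 * (n * L * ((M * M') * (4 * N ^ 3 * l ^ 4 * ss k q U))) := by
  have hM : 0 ≤ M := (norm_nonneg _).trans (hh (0, 0))
  have hM' : 0 ≤ M' := (norm_nonneg _).trans (hw (0, 0))
  unfold EE
  rw [Finset.sum_sub_distrib, ← Finset.mul_sum]
  have e1 : ∑ x : Site n L l, h (x.1, x.2.1) * w ((x + dir m).1, (x + dir m).2.1) *
      Gw k U ι ι' (x + dir m) = ∑ x : Site n L l,
      (fun u : ZMod n × ZMod L => h (u - ((dir m : Site n L l).1, (dir m : Site n L l).2.1)) *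
        w u) (x.1, x.2.1) * Gw k U ι ι' x := by
    rw [← Equiv.sum_comp (Equiv.addRight (dir m)) fun x : Site n L l =>
      (fun u : ZMod n × ZMod L => h (u - ((dir m : Site n L l).1, (dir m : Site n L l).2.1)) *
        w u) (x.1, x.2.1) * Gw k U ι ι' x]
    refine Finset.sum_congr rfl fun x _ => ?_
    simp only [Equiv.coe_addRight]
    have : (((x + dir m).1, (x + dir m).2.1) : ZMod n × ZMod L) -
        ((dir m : Site n L l).1, (dir m : Site n L l).2.1) = (x.1, x.2.1) := by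
      ext <;> simp
    rw [this]
  have e2 : ∑ x : Site n L l, h (x.1, x.2.1) * w (x.1, x.2.1) * Gw k U ι ι' x =
      ∑ x : Site n L l, (fun u : ZMod n × ZMod L => h u * w u) (x.1, x.2.1) *
        Gw k U ι ι' x := rfl
  have b1 := base_le k q U hJ hS hi hi' (fun u : ZMod n × ZMod L =>
    h (u - ((dir m : Site n L l).1, (dir m : Site n L l).2.1)) * w u) (M * M') (fun u => by
      rw [norm_mul]
      exact mul_le_mul (hh _) (hw _) (norm_nonneg _) hM)
  have b2 := base_le k q U hJ hS hi hi' (fun u : ZMod n × ZMod L => h u * w u) (M * M')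
    (fun u => by
      rw [norm_mul]
      exact mul_le_mul (hh _) (hw _) (norm_nonneg _) hM)
  rw [e1, e2]
  refine (norm_sub_le _ _).trans ?_
  rw [norm_mul, RCLike.norm_conj, norm_ek, one_mul, two_mul]
  exact add_le_add b1 b2

/-- the conjugate of `tw` as a sum over the modes -/
lemma tw_eq (k : ℕ) {J : Finset (Ix N)} (hJ : Half N k J)
    (w : Ix N → Fin 4 → ZMod n × ZMod L → ℂ) (U : Link n L l → SU N) (α : Col N) (j : Fin 4)
    (x : Site n L l) : conj (tw (mo k J w) U α j x) =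
      ∑ ι' ∈ J, w ι' j (x.1, x.2.1) * wave N k l ι' x.2.2 * TT U α ι'.1 x := by
  unfold tw
  rw [map_sum]
  have h1 : ∀ α' ∈ Cz N, conj (conj (mo k J w α' j x * trace ((Dr α U x).1 * (Dr α' U x).1))) =
      ∑ ι' ∈ J with ι'.1 = α', w ι' j (x.1, x.2.1) * wave N k l ι' x.2.2 * TT U α ι'.1 x := by
    intro α' _
    rw [Complex.conj_conj]
    unfold mo
    rw [Finset.sum_mul]
    refine Finset.sum_congr rfl fun ι' hι => ?_
    rw [← (Finset.mem_filter.1 hι).2]
    rfl
  rw [Finset.sum_congr rfl h1]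
  exact Finset.sum_fiberwise_of_maps_to (fun ι' hι => Finset.mem_erase.2
    ⟨(hJ ι' hι).1, Finset.mem_univ _⟩) _

lemma conj_ws (k : ℕ) (ι : Ix N) (x : Site n L l) (m : Fin 4) :
    conj (rh k ι.1 x m) * wave N k l ι x.2.2 =
      conj (ek N k l ι m) * wave N k l ι (x + dir m).2.2 := by
  have h := wave_shift k ι x m
  have h1 : conj (rh k ι.1 x m) * rh k ι.1 x m = 1 := by
    rw [mul_comm, Complex.mul_conj, Complex.normSq_eq_norm_sq, norm_rh']
    simp
  have h2 : conj (ek N k l ι m) * ek N k l ι m = 1 := by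
    rw [mul_comm, Complex.mul_conj, Complex.normSq_eq_norm_sq, norm_ek]
    simp
  linear_combination (conj (rh k ι.1 x m) * conj (ek N k l ι m)) * (-h) -
    (conj (rh k ι.1 x m) * wave N k l ι x.2.2) * h2 +
    conj (ek N k l ι m) * wave N k l ι (x + dir m).2.2 * h1

lemma pair_eq (k : ℕ) {J : Finset (Ix N)} (hJ : Half N k J)
    (h : Ix N → Fin 4 → Fin 4 → ZMod n × ZMod L → ℂ)
    (w : Ix N → Fin 4 → ZMod n × ZMod L → ℂ) (U : Link n L l → SU N) (i j m m' : Fin 4) :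
    ∑ α ∈ Cz N, ∑ x : Site n L l, md k J h α i j x *
      conj (nb k α m (tw (mo k J w) U α m') x) =
      ∑ ι ∈ J, ∑ ι' ∈ J, ∑ x : Site n L l, EE k U (h ι i j) (w ι' m') m ι ι' x := by
  have h1 : ∀ α ∈ Cz N, ∑ x : Site n L l, md k J h α i j x *
      conj (nb k α m (tw (mo k J w) U α m') x) =
      ∑ ι ∈ J with ι.1 = α, ∑ ι' ∈ J, ∑ x : Site n L l,
        EE k U (h ι i j) (w ι' m') m ι ι' x := by
    intro α _
    have h2 : ∀ x : Site n L l, md k J h α i j x * conj (nb k α m (tw (mo k J w) U α m') x) =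
        ∑ ι ∈ J with ι.1 = α, ∑ ι' ∈ J, EE k U (h ι i j) (w ι' m') m ι ι' x := by
      intro x
      unfold Run7.h630.QF.md
      rw [Finset.sum_mul]
      refine Finset.sum_congr rfl fun ι hι => ?_
      rw [← (Finset.mem_filter.1 hι).2]
      unfold nb
      rw [map_sub, map_mul, tw_eq k hJ, tw_eq k hJ, mul_sub, Finset.mul_sum, Finset.mul_sum,
        Finset.mul_sum, ← Finset.sum_sub_distrib]
      refine Finset.sum_congr rfl fun ι' _ => ?_
      unfold EE Gw
      linear_combination (h ι i j (x.1, x.2.1) * (w ι' m' ((x + dir m).1, (x + dir m).2.1) *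
        wave N k l ι' (x + dir m).2.2 * TT U ι.1 ι'.1 (x + dir m))) * conj_ws k ι x m
    rw [Finset.sum_congr rfl fun x _ => h2 x, Finset.sum_comm]
    refine Finset.sum_congr rfl fun ι _ => ?_
    rw [Finset.sum_comm]
  rw [Finset.sum_congr rfl h1]
  exact Finset.sum_fiberwise_of_maps_to (fun ι hι => Finset.mem_erase.2
    ⟨(hJ ι hι).1, Finset.mem_univ _⟩) _

/-- **R4b** -/
theorem t_R4b : S_R4b := by
  intro N _
  have hN : (0 : ℝ) < N := by exact_mod_cast NeZero.pos N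
  refine ⟨256 * N ^ 3, 2, by positivity, ?_⟩
  intro n L l k _ _ _ hk q U J hJ hS h w M M' hh hw
  have hs : 0 ≤ ss k q U := Run7.h370.QC.ss_nonneg k q U
  have hn : (1 : ℝ) ≤ n := by exact_mod_cast NeZero.pos n
  have hL : (1 : ℝ) ≤ L := by exact_mod_cast NeZero.pos L
  rcases J.eq_empty_or_nonempty with hJ0 | ⟨ι0, hι0⟩
  · subst hJ0
    unfold prg Run7.h630.QF.md
    simp
  have hM : 0 ≤ M := (norm_nonneg _).trans (hh ι0 hι0 0 0 (0, 0))
  have hM' : 0 ≤ M' := (norm_nonneg _).trans (hw ι0 hι0 0 (0, 0))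
  obtain ⟨K, hK⟩ : ∃ K : ℝ, K = (J.card : ℝ) ^ 2 *
    (2 * (n * L * ((M * M') * (4 * N ^ 3 * l ^ 4 * ss k q U)))) := ⟨_, rfl⟩
  have hp : ∀ i j m m' : Fin 4, ‖∑ α ∈ Cz N, ∑ x : Site n L l, md k J h α i j x *
      conj (nb k α m (tw (mo k J w) U α m') x)‖ ≤ K := by
    intro i j m m'
    rw [pair_eq k hJ]
    refine (norm_sum_le_of_le _ fun ι hι => norm_sum_le_of_le _ fun ι' hι' =>
      EE_le k q U hJ hS hι hι' (h ι i j) (w ι' m') m M M' (hh ι hι i j)
        (hw ι' hι' m')).trans (le_of_eq ?_)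
    rw [Finset.sum_const, Finset.sum_const, nsmul_eq_mul, nsmul_eq_mul, hK]
    ring
  have hK0 : 0 ≤ K := (norm_nonneg _).trans (hp 0 0 0 0)
  have e : prg k (md k J h : Col N → Fin 4 → Fin 4 → Site n L l → ℂ) (tw (mo k J w) U) =
      (∑ i : Fin 4, ∑ j ∈ Finset.Ioi i, ((∑ α ∈ Cz N, ∑ x : Site n L l, md k J h α i j x *
        conj (nb k α i (tw (mo k J w) U α j) x)) - (∑ α ∈ Cz N, ∑ x : Site n L l,
        md k J h α i j x * conj (nb k α j (tw (mo k J w) U α i) x)))).re := by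
    unfold prg
    rw [Complex.re_sum, Finset.sum_congr rfl fun α _ => Finset.sum_comm, Finset.sum_comm]
    refine Finset.sum_congr rfl fun i _ => ?_
    rw [Complex.re_sum, Finset.sum_congr rfl fun α _ => Finset.sum_comm, Finset.sum_comm]
    refine Finset.sum_congr rfl fun j _ => ?_
    rw [Complex.sub_re, Complex.re_sum, Complex.re_sum, ← Finset.sum_sub_distrib]
    refine Finset.sum_congr rfl fun α _ => ?_
    rw [Complex.re_sum, Complex.re_sum, ← Finset.sum_sub_distrib]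
    refine Finset.sum_congr rfl fun x _ => ?_
    rw [map_sub, mul_sub, Complex.sub_re]
  rw [e]
  refine (Complex.abs_re_le_norm _).trans ?_
  have h2 : ‖∑ i : Fin 4, ∑ j ∈ Finset.Ioi i, ((∑ α ∈ Cz N, ∑ x : Site n L l,
      md k J h α i j x * conj (nb k α i (tw (mo k J w) U α j) x)) -
      (∑ α ∈ Cz N, ∑ x : Site n L l,
        md k J h α i j x * conj (nb k α j (tw (mo k J w) U α i) x)))‖ ≤ 16 * (2 * K) := by
    have h3 : ∀ i : Fin 4, ((Finset.Ioi i).card : ℝ) ≤ 4 := by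
      intro i
      have : (Finset.Ioi i).card ≤ 4 := (Finset.card_le_univ _).trans (by simp)
      exact_mod_cast this
    refine (norm_sum_le_of_le _ fun i _ => (norm_sum_le_of_le (f := fun j => ((∑ α ∈ Cz N,
      ∑ x : Site n L l, md k J h α i j x * conj (nb k α i (tw (mo k J w) U α j) x)) -
      (∑ α ∈ Cz N, ∑ x : Site n L l,
        md k J h α i j x * conj (nb k α j (tw (mo k J w) U α i) x)))) (n := fun _ => 2 * K) _
      fun j _ => ?_).trans (?_ : _ ≤ 4 * (2 * K))).trans ?_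
    · refine (norm_sub_le _ _).trans ?_
      rw [two_mul]
      exact add_le_add (hp i j i j) (hp i j j i)
    · rw [Finset.sum_const, nsmul_eq_mul]
      exact mul_le_mul_of_nonneg_right (h3 i) (by positivity)
    · rw [Finset.sum_const, Finset.card_univ, Fintype.card_fin, nsmul_eq_mul]
      push_cast
      linarith
  refine h2.trans ?_
  rw [hK]
  unfold vol
  have h5 : (n : ℝ) * L * l ^ 4 ≤ (n * L * l ^ 2) ^ 2 := by
    have h6 : (n : ℝ) * L ≤ (n * L) ^ 2 := by
      have : (1 : ℝ) ≤ n * L := by nlinarith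
      nlinarith
    calc (n : ℝ) * L * l ^ 4 ≤ ((n : ℝ) * L) ^ 2 * (l : ℝ) ^ 4 := by gcongr
      _ = ((n : ℝ) * L * l ^ 2) ^ 2 := by ring
  have h7 : 0 ≤ 256 * (N : ℝ) ^ 3 * (J.card : ℝ) ^ 2 * (M * M') * ss k q U := by positivity
  calc 16 * (2 * ((J.card : ℝ) ^ 2 * (2 * (n * L * ((M * M') *
        (4 * N ^ 3 * l ^ 4 * ss k q U))))))
      = 256 * (N : ℝ) ^ 3 * (J.card : ℝ) ^ 2 * (M * M') * ss k q U * (n * L * l ^ 4) := by ring
    _ ≤ 256 * (N : ℝ) ^ 3 * (J.card : ℝ) ^ 2 * (M * M') * ss k q U * (n * L * l ^ 2) ^ 2 :=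
      mul_le_mul_of_nonneg_left h5 h7
    _ = 256 * N ^ 3 * (J.card : ℝ) ^ 2 * (n * L * l ^ 2) ^ 2 * (M * M') * ss k q U := by ring

end waves

end

end Run7.h4.QF
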