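import Pool.Agent.Run7.h630.QF.Iface
import Pool.Agent.Run7.h630.QC.Q13
import Pool.Agent.Run7.h182.UnqZ
import Pool.Agent.Run7.h182.Wl

/-!
# R9: the transfer to the infinite volume
-/

set_option linter.unusedSectionVars false
set_option linter.unusedVariables false
set_option linter.style.haveILetI false

open MeasureTheory Matrix Filter Topology

namespace Run7.h4.QF

noncomputable section

section ens

open Pool.Agent.Run7.h897 Pool.Agent.Run7.h897.TW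
open Pool.Agent.Run7.h897.FS (BM PM)
open Run7.h182.Tru (LkN Lw PW win)
open Run7.h182.Unq (InR)

variable {N l : ℕ} {G : Type*} [Group G] [NeZero N] [NeZero l] {w : Ens N l G} {z : ZMod N → G}

/-- the translation of the window -/
def shN (R : ℕ) (V : LkZ l → G) : LkN l → G :=
  fun e => V ((((e.1.1.1 : ℤ) - R, (e.1.1.2 : ℤ) - R), e.1.2), e.2)

/-- the observable of the translated window -/
def HN (R : ℕ) (H : (LkZ l → G) → ℝ) : (LkN l → G) → ℝ := fun V => H fun e =>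
  V ((((e.1.1.1 + R).toNat, (e.1.1.2 + R).toNat), e.1.2), e.2)

/-- the probability of no flux in the window -/
def Pc (w : Ens N l G) (R : ℕ) (V : LkZ l → G) : ℝ := PW w (2 * R + 1) (shN R V)

lemma HN_lw {R : ℕ} {H : (LkZ l → G) → ℝ} (hHR : InR R H) : Lw (2 * R + 1) (HN R H) := by
  intro V V' hV
  refine hHR _ _ fun e h1 h2 => ?_
  rw [abs_le] at h1 h2
  exact hV _ (by simp only; omega) (by simp only; omega)

lemma HN_rd {a b : ℕ} [NeZero a] [NeZero b] {R : ℕ} {H : (LkZ l → G) → ℝ} (hHR : InR R H)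
    (U : Lk a b l → G) : H (fun e => perZ U (tz R R e)) = HN R H (Run7.h182.Tru.rd U) := by
  unfold HN
  refine hHR _ _ fun e h1 h2 => ?_
  rw [abs_le] at h1 h2
  unfold perZ tz Run7.h182.Tru.rd
  simp only
  have e1 : (((e.1.1.1 + R : ℤ)) : ZMod a) = (((e.1.1.1 + R).toNat : ℕ) : ZMod a) := by
    conv_lhs => rw [← Int.toNat_of_nonneg (show 0 ≤ e.1.1.1 + R by omega)]
    rw [Int.cast_natCast]
  have e2 : (((e.1.1.2 + R : ℤ)) : ZMod b) = (((e.1.1.2 + R).toNat : ℕ) : ZMod b) := by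
    conv_lhs => rw [← Int.toNat_of_nonneg (show 0 ≤ e.1.1.2 + R by omega)]
    rw [Int.cast_natCast]
  rw [e1, e2]

lemma shN_tz {a b : ℕ} (R : ℕ) (U : Lk a b l → G) :
    shN R (fun e => perZ U (tz R R e)) = Run7.h182.Tru.rd U := by
  funext e
  unfold shN perZ tz Run7.h182.Tru.rd
  simp only [sub_add_cancel, Int.cast_natCast]

lemma bsN_shN {a b : ℕ} (n : ZMod N) (R : ℕ) (U : Lk a b l → G) (u : ℕ × ℕ) :
    Run7.h182.Tru.bsN w n (shN R (perZ U)) u =
      bsE w n U ((u.1 : ZMod a) - R, (u.2 : ZMod b) - R) := by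
  unfold Run7.h182.Tru.bsN bsE
  refine Finset.sum_congr rfl fun y _ => ?_
  congr 1
  have e1 : ((((u.1 + 1 : ℕ) : ℤ) - R : ℤ) : ZMod a) = (u.1 : ZMod a) - R + 1 := by
    push_cast; ring
  have e2 : ((((u.2 + 1 : ℕ) : ℤ) - R : ℤ) : ZMod b) = (u.2 : ZMod b) - R + 1 := by
    push_cast; ring
  have e3 : (((u.1 : ℤ) - R : ℤ) : ZMod a) = (u.1 : ZMod a) - R := by push_cast; ring
  have e4 : (((u.2 : ℤ) - R : ℤ) : ZMod b) = (u.2 : ZMod b) - R := by push_cast; ring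
  unfold plq shN perZ
  simp only [e1, e2, e3, e4]
  simp [ee]

lemma Pc_perZ {a b : ℕ} (R : ℕ) (U : Lk a b l → G) : Pc w R (perZ U) =
    ∏ u ∈ Finset.range (2 * R + 1) ×ˢ Finset.range (2 * R + 1),
      (Real.exp (-bsE w 0 U ((u.1 : ZMod a) - R, (u.2 : ZMod b) - R)) /
        ∑ n : ZMod N, Real.exp (-bsE w n U ((u.1 : ZMod a) - R, (u.2 : ZMod b) - R))) := by
  unfold Pc PW Run7.h182.Tru.p0N
  simp only [bsN_shN]

lemma sum_win {a b : ℕ} [NeZero a] [NeZero b] (R : ℕ) (f : ZMod a × ZMod b → ZMod N → ℝ)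
    (S : Finset (ZMod a × ZMod b → ZMod N))
    (hS : ∀ q, q ∈ S ↔ ∀ u : ZMod a × ZMod b, win a b (2 * R + 1)
      (u + ((R : ZMod a), (R : ZMod b))) → q u = 0) :
    ∑ q ∈ S, ∏ u, f u (q u) = ∏ u : ZMod a × ZMod b,
      (if win a b (2 * R + 1) (u + ((R : ZMod a), (R : ZMod b))) then f u 0 else ∑ n, f u n) := by
  have h1 : S = Fintype.piFinset fun u : ZMod a × ZMod b =>
      if win a b (2 * R + 1) (u + ((R : ZMod a), (R : ZMod b))) then ({0} : Finset (ZMod N))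
      else Finset.univ := by
    ext q
    rw [hS, Fintype.mem_piFinset]
    refine forall_congr' fun u => ?_
    by_cases h : win a b (2 * R + 1) (u + ((R : ZMod a), (R : ZMod b)))
    · rw [if_pos h, Finset.mem_singleton]
      exact ⟨fun h' => h' h, fun h' _ => h'⟩
    · rw [if_neg h]
      exact ⟨fun _ => Finset.mem_univ _, fun _ h' => absurd h' h⟩
  rw [h1, ← Finset.prod_univ_sum]
  refine Finset.prod_congr rfl fun u _ => ?_
  split_ifs
  · rw [Finset.sum_singleton]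
  · rfl

lemma sum_wS {a b : ℕ} [NeZero a] [NeZero b] {R : ℕ} (ha : 2 * R + 2 ≤ a) (hb : 2 * R + 2 ≤ b)
    (S : Finset (ZMod a × ZMod b → ZMod N))
    (hS : ∀ q, q ∈ S ↔ ∀ u : ZMod a × ZMod b, win a b (2 * R + 1)
      (u + ((R : ZMod a), (R : ZMod b))) → q u = 0) (U : Lk a b l → G) :
    ∑ q ∈ S, wS w q U = wtE w U * Pc w R (perZ U) := by
  unfold wS
  rw [← Finset.mul_sum, sum_win R (fun u n => Real.exp (-bsE w n U u)) S hS, Pc_perZ]
  unfold wtE
  rw [mul_assoc]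
  congr 1
  have h1 := Run7.h182.Tru.prod_win (a := a) (b := b) (W := 2 * R + 1) (by omega) (by omega)
    (fun v : ZMod a × ZMod b => Real.exp (-bsE w 0 U (v.1 - R, v.2 - R)) /
      ∑ n : ZMod N, Real.exp (-bsE w n U (v.1 - R, v.2 - R)))
  simp only at h1
  have h2 := Equiv.prod_comp (Equiv.addRight ((R : ZMod a), (R : ZMod b)))
    (fun v : ZMod a × ZMod b => if win a b (2 * R + 1) v then
      Real.exp (-bsE w 0 U (v.1 - R, v.2 - R)) /
        ∑ n : ZMod N, Real.exp (-bsE w n U (v.1 - R, v.2 - R)) else 1)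
  rw [← h1, ← h2, ← Finset.prod_mul_distrib]
  refine Finset.prod_congr rfl fun u _ => ?_
  have hpos : 0 < ∑ n : ZMod N, Real.exp (-bsE w n U u) :=
    Finset.sum_pos (fun n _ => Real.exp_pos _) ⟨0, Finset.mem_univ _⟩
  rw [Equiv.coe_addRight]
  simp only
  split_ifs with h
  · have e1 : ((u + ((R : ZMod a), (R : ZMod b))).1 - (R : ZMod a),
        (u + ((R : ZMod a), (R : ZMod b))).2 - (R : ZMod b)) = u := by
      ext <;> simp
    rw [e1]
    field_simp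
  · rw [mul_one]

/-- The torus average of the truncated observable times the product weight. -/
def AA [MeasurableSpace G] (μ : Measure G) (w : Ens N l G) (R W : ℕ) (H : (LkZ l → G) → ℝ)
    (c b : ℕ) [NeZero c] [NeZero b] : ℝ :=
  XE μ w (fun U : Lk c b l → G => HN R H (Run7.h182.Tru.rd U) * PW w W (Run7.h182.Tru.rd U))

variable [MeasurableSpace G] [MeasurableMul₂ G] [MeasurableInv G] {μ : Measure G}
  [IsProbabilityMeasure μ]

lemma shN_meas (R : ℕ) : Measurable (shN (l := l) (G := G) R) :=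
  measurable_pi_iff.2 fun _ => measurable_pi_apply _

lemma Pc_bm (hw : w.Bd) (R : ℕ) : BM (Pc (l := l) w R) :=
  (Run7.h182.Tru.PW_bm hw (2 * R + 1)).comp (shN_meas R)

lemma HN_bm {R : ℕ} {H : (LkZ l → G) → ℝ} (hH : BM H) : BM (HN R H) :=
  hH.comp (measurable_pi_iff.2 fun _ => measurable_pi_apply _)

/-- translation of the window -/
lemma XE_win {a b : ℕ} [NeZero a] [NeZero b] (hw : w.Bd) {R : ℕ} {H : (LkZ l → G) → ℝ}
    (hH : BM H) (hHR : InR R H) :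
    XE μ w (fun U : Lk a b l → G => HN R H (Run7.h182.Tru.rd U) *
      PW w (2 * R + 1) (Run7.h182.Tru.rd U)) =
      XE μ w (fun U : Lk a b l → G => H (perZ U) * Pc w R (perZ U)) := by
  have h1 := XE_sh (μ := μ) (a := a) (b := b) (w := w) hw
    (H := fun V => H V * Pc w R V) (hH.mul (Pc_bm hw R)) R R
  rw [h1]
  congr 1
  funext U
  rw [HN_rd hHR]
  unfold Pc
  rw [shN_tz]

lemma XT_win {a b : ℕ} [NeZero a] [NeZero b] (hw : w.Bd) {R : ℕ} {H : (LkZ l → G) → ℝ}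
    (hH : BM H) (hHR : InR R H) :
    XT μ w (fun U : Lk a b l → G => H (perZ U)) =
      XT μ w (fun U : Lk a b l → G => HN R H (Run7.h182.Tru.rd U)) := by
  rw [Run7.h182.Unq.XT_sh (μ := μ) (a := a) (b := b) (w := w) hw (H := H) hH R R]
  congr 1
  funext U
  exact HN_rd hHR U

/-- the sizes, quantitative -/
lemma XE_size [μ.IsInvInvariant] [μ.IsMulLeftInvariant] (hb : w.Bd) (hw : w.Sy) {a : ℕ}
    (ha : 1 ≤ a) {s : ℝ} (hs0 : 0 < s) (hs : s ≤ 1 / 2) (hcr : CrS μ w a s) {W r : ℕ}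
    (hW : W + 3 ≤ 2 ^ r) {H : (LkN l → G) → ℝ} (hH : Measurable H) (hH1 : ∀ V, |H V| ≤ 1)
    (hHW : Lw (W + 1) H) {n m n' : ℕ} [NeZero (2 * n)] [NeZero (2 * m)] [NeZero (2 * n')]
    (hn : 2 ^ (r + 2) * a ≤ n) (hm : 2 ^ (r + 2) * a ≤ m) (hn' : n' = 2 * (2 ^ (r + 1) * a)) :
    |XE μ w (fun U : Lk (2 * n) (2 * m) l → G => H (Run7.h182.Tru.rd U)) -
      XE μ w (fun U : Lk (2 * n') (2 * n') l → G => H (Run7.h182.Tru.rd U))| ≤ 12 * s ^ 2 ^ r := by
  set H' : (LkZ l → G) → ℝ := fun V => H fun e => V ((((e.1.1.1 : ℤ), (e.1.1.2 : ℤ)), e.1.2), e.2)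
    with hH'
  have hm1 : Measurable H' := hH.comp (measurable_pi_iff.2 fun _ => measurable_pi_apply _)
  have hbm : BM H' := ⟨hm1, 1, fun V => hH1 _⟩
  have hin : InW (W + 2) H' := by
    intro V V' h
    refine hHW _ _ fun e h1 h2 => ?_
    exact h _ (Int.natCast_nonneg _) (by push_cast; omega) (Int.natCast_nonneg _)
      (by push_cast; omega)
  have hrd : ∀ (c b : ℕ) (U : Lk c b l → G), H' (perZ U) = H (Run7.h182.Tru.rd U) := by
    intro c b U
    simp only [hH']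
    congr 1
    funext e
    unfold perZ Run7.h182.Tru.rd
    simp only [Int.cast_natCast]
  have hlt : W + 2 + 1 ≤ 2 * (2 ^ (r + 1) * a) := by
    have h3 : 2 ^ r ≤ 2 ^ (r + 1) := Nat.pow_le_pow_right (by norm_num) (by omega)
    have h4 : 2 ^ (r + 1) ≤ 2 ^ (r + 1) * a := Nat.le_mul_of_pos_right _ (by omega)
    omega
  have c1 := chain (μ := μ) hb hw ha hs0 hs hcr (Run7.h182.Wl.wl w hb hw) (k := r) (r := W + 2)
    (n := n) (m := m) (by omega) hlt hn hm hbm (C := 1) (fun V => hH1 _) hin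
  rw [← hn', XH_eq (p := 2 * n) (q := 2 * m) rfl rfl, XH_eq (p := 2 * n') (q := 2 * n') rfl rfl]
    at c1
  simp only [hrd] at c1
  linarith

end ens

section two

open Pool.Agent.Run7.h897 (TW.XT TW.XE TW.CrS TW.perZ TW.wS TW.wtE TW.ZE)
open Pool.Agent.Run7.h897.FS (PM BM)
open Pool.Agent.Run7.h897.ST (S4 S6 mu6 mu6_haar mu6_prob cfE)
open Pool.Agent.Run7.h871.TC (wE wE_bd wE_sy)
open Run7.h182.Tru (win)
open Run7.h4.YM Run7.h630.WL Run7.h630.QC Run7.h630.QF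

variable {N l : ℕ} [NeZero N] [NeZero l]

lemma mem_Wn {a b : ℕ} [NeZero a] [NeZero b] {R : ℕ} (ha : 2 * R + 2 ≤ a) (hb : 2 * R + 2 ≤ b)
    (q : ZMod a × ZMod b → ZMod N) : Wn a b N R q ↔
      ∀ u : ZMod a × ZMod b, win a b (2 * R + 1) (u + ((R : ZMod a), (R : ZMod b))) → q u = 0 := by
  unfold Wn
  constructor
  · intro h u hu
    obtain ⟨h1, h2⟩ := hu
    simp only [Prod.fst_add, Prod.snd_add] at h1 h2
    have h3 := h ((((u.1 + (R : ZMod a)).val : ℕ) : ℤ) - R, (((u.2 + (R : ZMod b)).val : ℕ) : ℤ) - R)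
      (by rw [abs_le]; simp only; omega) (by rw [abs_le]; simp only; omega)
    have e1 : (((((u.1 + (R : ZMod a)).val : ℕ) : ℤ) - R : ℤ) : ZMod a) = u.1 := by
      push_cast
      rw [ZMod.natCast_zmod_val]
      ring
    have e2 : (((((u.2 + (R : ZMod b)).val : ℕ) : ℤ) - R : ℤ) : ZMod b) = u.2 := by
      push_cast
      rw [ZMod.natCast_zmod_val]
      ring
    simp only [e1, e2] at h3
    exact h3
  · intro h x hx1 hx2
    rw [abs_le] at hx1 hx2
    apply h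
    unfold win
    simp only [Prod.fst_add, Prod.snd_add]
    have e1 : ((x.1 : ℤ) : ZMod a) + (R : ZMod a) = (((x.1 + R).toNat : ℕ) : ZMod a) := by
      have : ((x.1 : ℤ) : ZMod a) + (R : ZMod a) = ((x.1 + R : ℤ) : ZMod a) := by push_cast; ring
      rw [this]
      conv_lhs => rw [← Int.toNat_of_nonneg (show 0 ≤ x.1 + R by omega)]
      rw [Int.cast_natCast]
    have e2 : ((x.2 : ℤ) : ZMod b) + (R : ZMod b) = (((x.2 + R).toNat : ℕ) : ZMod b) := by
      have : ((x.2 : ℤ) : ZMod b) + (R : ZMod b) = ((x.2 + R : ℤ) : ZMod b) := by push_cast; ring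
      rw [this]
      conv_lhs => rw [← Int.toNat_of_nonneg (show 0 ≤ x.2 + R by omega)]
      rw [Int.cast_natCast]
    rw [e1, e2, ZMod.val_natCast_of_lt (by omega), ZMod.val_natCast_of_lt (by omega)]
    omega

variable [MeasurableSpace (S4 N)] [BorelSpace (S4 N)] [MeasurableSpace (S6 N)]
  [BorelSpace (S6 N)]

/-- the sum over the centre elements which vanish in the window -/
theorem Sw_int (μ : Measure (SU N)) [IsProbabilityMeasure μ] {a b R : ℕ} [NeZero a] [NeZero b]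
    (ha : 2 * R + 2 ≤ a) (hb : 2 * R + 2 ≤ b) (k : ℕ) (β : ℝ) {H : (LinkZ l → SU N) → ℝ}
    (hH : Continuous H) (hH1 : ∀ V, |H V| ≤ 1) :
    Sw N a b R (fun q => ∫ U : Link a b l → SU N, H (per U) * Real.exp (-(β * Sq k q U))
      ∂(Measure.pi fun _ => μ)) =
    ∫ y : Pool.Agent.Run7.h897.TW.Lk a b l → S6 N, (F6 H (TW.perZ y) *
      Pc (wE N l k β) R (TW.perZ y)) * TW.wtE (wE N l k β) y ∂(PM (mu6 μ) _) := by
  classical
  haveI := mu6_prob μ
  have hbm6 : BM (F6 (N := N) (l := l) H) := ⟨(F6_cont hH).measurable, 1, fun V => hH1 _⟩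
  have hFbm : BM fun y : Pool.Agent.Run7.h897.TW.Lk a b l → S6 N => F6 H (TW.perZ y) :=
    hbm6.comp Pool.Agent.Run7.h897.TW.perZ_meas
  have hwb := fun q : ZMod a × ZMod b → ZMod N =>
    Pool.Agent.Run7.h897.TW.wS_bm (a := a) (b := b) (wE_bd (N := N) (l := l) (k := k) β) q
  have h1 : ∀ q : ZMod a × ZMod b → ZMod N, ∫ U : Link a b l → SU N,
      H (per U) * Real.exp (-(β * Sq k q U)) ∂(Measure.pi fun _ => μ) =
      ∫ y : Pool.Agent.Run7.h897.TW.Lk a b l → S6 N, F6 H (TW.perZ y) *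
        TW.wS (wE N l k β) q y ∂(PM (mu6 μ) _) := by
    intro q
    rw [int_cf μ (hFbm.mul (hwb q)).1]
    refine integral_congr_ae (Eventually.of_forall fun U => ?_)
    simp only
    rw [F6_per, Sq_eq]
  unfold Sw
  rw [Finset.sum_congr rfl fun q _ => h1 q,
    ← integral_finsetSum _ fun q _ => (hFbm.mul (hwb q)).int]
  refine integral_congr_ae (Eventually.of_forall fun y => ?_)
  simp only
  rw [← Finset.mul_sum, sum_wS ha hb _ (fun q => by
    rw [Finset.mem_filter]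
    exact ⟨fun h => (mem_Wn ha hb q).1 h.2, fun h => ⟨Finset.mem_univ _, (mem_Wn ha hb q).2 h⟩⟩) y]
  ring

/-- **R9** -/
theorem t_R9 (h6 : S_R6) : S_R9 := by
  intro N l k _ _ hN hk _ _ _ _ μ _ _ β a0 ha0 s hs0 hs hcr ν hν R r hRr H hH hH1 hHR m _ hm
  haveI := mu6_prob μ
  haveI := mu6_haar μ
  haveI := Pool.Agent.Run7.h897.ST.right_inv'' (mu6 μ)
  haveI := Pool.Agent.Run7.h897.ST.inv_inv'' (mu6 μ)
  haveI := hν.prob
  obtain ⟨w, hw⟩ : ∃ w, w = wE N l k β := ⟨_, rfl⟩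
  have hb : w.Bd := hw ▸ wE_bd β
  have hsy : w.Sy := hw ▸ wE_sy β
  have hcn : Pool.Agent.Run7.h897.TW.Cn w (Pool.Agent.Run7.h871.UP.zc N) :=
    hw ▸ Pool.Agent.Run7.h871.UP.zc_cn β
  rw [← hw] at hcr
  have hN0 : (0 : ℝ) < N := by exact_mod_cast NeZero.pos N
  obtain ⟨W, hW⟩ : ∃ W, W = 2 * R + 1 := ⟨_, rfl⟩
  have hF1 : ∀ V, |F6 (l := l) H V| ≤ 1 := fun V => hH1 _
  have hFm : Measurable (F6 (l := l) H) := (F6_cont hH).measurable
  have hFbm : BM (F6 (l := l) H) := ⟨hFm, 1, hF1⟩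
  have hFR : Run7.h182.Unq.InR R (F6 (l := l) H) := fun V V' h => hHR _ _ fun e h1 h2 => by
    rw [h (lz l e) h1 h2]
  have hO : BM (fun _ : Pool.Agent.Run7.h897.TW.LkZ l → S6 N => (1 : ℝ)) := BM.const 1
  -- the two quantities on a torus
  obtain ⟨p, hp⟩ : ∃ p : ℝ, p = ((N : ℝ) ^ ((2 * R + 1) ^ 2))⁻¹ := ⟨_, rfl⟩
  have hNp : (0 : ℝ) < (N : ℝ) ^ ((2 * R + 1) ^ 2) := by positivity
  have hp0 : 0 < p := by rw [hp]; positivity
  -- partition functions
  have hZs : ∀ (c b : ℕ) [NeZero c] [NeZero b], TW.ZE (mu6 μ) w c b = Zs μ c b l k β := by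
    intro c b _ _
    rw [hw, Pool.Agent.Run7.h871.TC.ZE_eq_Zt, t_Q13]
  have hZp : ∀ (c b : ℕ) [NeZero c] [NeZero b], 0 < Zs μ c b l k β := by
    intro c b _ _
    rw [← hZs c b]
    exact Pool.Agent.Run7.h897.TW.ZE_pos hb
  have hAe : ∀ (c b : ℕ) [NeZero c] [NeZero b], 2 * R + 2 ≤ c → 2 * R + 2 ≤ b →
      AA (mu6 μ) w R W (F6 H) c b = Sw N c b R (fun q => ∫ U : Link c b l → SU N, H (per U) *
        Real.exp (-(β * Sq k q U)) ∂(Measure.pi fun _ => μ)) / Zs μ c b l k β := by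
    intro c b _ _ hc hb'
    unfold AA
    rw [hW, XE_win hb hFbm hFR, Sw_int μ hc hb' k β hH hH1, ← hZs c b, ← hw]
    rfl
  have hSw1 : ∀ (c b : ℕ) [NeZero c] [NeZero b], 2 * R + 2 ≤ c → 2 * R + 2 ≤ b →
      Sw N c b R (fun q => ∫ U : Link c b l → SU N, Real.exp (-(β * Sq k q U))
        ∂(Measure.pi fun _ => μ)) = p * Zs μ c b l k β := by
    intro c b _ _ hc hb'
    have h1 := h6 N c b l k μ R hc hb' (fun x => Real.exp (-(β * x))) (by fun_prop)
    simp only at h1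
    have h2 : Zs μ c b l k β = (N : ℝ) ^ ((2 * R + 1) ^ 2) * Sw N c b R
        (fun q => ∫ U : Link c b l → SU N, Real.exp (-(β * Sq k q U))
          ∂(Measure.pi fun _ => μ)) := by
      rw [h1]
      rfl
    rw [h2, hp, ← mul_assoc, inv_mul_cancel₀ hNp.ne', one_mul]
  have hBe : ∀ (c b : ℕ) [NeZero c] [NeZero b], 2 * R + 2 ≤ c → 2 * R + 2 ≤ b →
      TW.XE (mu6 μ) w (fun U : Pool.Agent.Run7.h897.TW.Lk c b l → S6 N =>
        Run7.h182.Tru.PW w W (Run7.h182.Tru.rd U)) = p := by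
    intro c b _ _ hc hb'
    have h1 := XE_win (μ := mu6 μ) (a := c) (b := b) hb (R := R)
      (H := fun _ : Pool.Agent.Run7.h897.TW.LkZ l → S6 N => (1 : ℝ)) hO (fun _ _ _ => rfl)
    have e1 : (HN R fun _ : Pool.Agent.Run7.h897.TW.LkZ l → S6 N => (1 : ℝ)) = fun _ => 1 := rfl
    rw [e1] at h1
    simp only [one_mul] at h1
    have h2 := Sw_int (l := l) μ hc hb' k β (H := fun _ => (1 : ℝ)) continuous_const (by simp)
    have e2 : (F6 (N := N) (l := l) fun _ => (1 : ℝ)) = fun _ => 1 := rfl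
    rw [e2] at h2
    simp only [one_mul] at h2
    rw [hSw1 c b hc hb', ← hw] at h2
    rw [hW, h1]
    unfold TW.XE
    rw [← h2, hZs c b, mul_div_assoc, div_self (hZp c b).ne', mul_one]
  -- the torus of the statement
  have h2r : 2 * R + 5 ≤ m := by
    have h3 : 2 ^ r ≤ 2 ^ (r + 1) := Nat.pow_le_pow_right (by norm_num) (by omega)
    have h4 : 2 ^ (r + 1) ≤ 2 ^ (r + 1) * a0 := Nat.le_mul_of_pos_right _ (by omega)
    omega
  have hfin : Sw N (2 * m) (2 * m) R (fun q => ∫ U, H (per U) * Real.exp (-(β * Sq k q U))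
      ∂(Measure.pi fun _ : Link (2 * m) (2 * m) l => μ)) /
    Sw N (2 * m) (2 * m) R (fun q => ∫ U, Real.exp (-(β * Sq k q U))
      ∂(Measure.pi fun _ : Link (2 * m) (2 * m) l => μ)) = AA (mu6 μ) w R W (F6 H) (2 * m) (2 * m) / p := by
    rw [hAe (2 * m) (2 * m) (by omega) (by omega), hSw1 (2 * m) (2 * m) (by omega) (by omega)]
    have := (hZp (2 * m) (2 * m)).ne'
    field_simp
  rw [hfin]
  -- the comparison with large tori
  obtain ⟨ρ, hρ0, hρ1, hcmp⟩ := Run7.h182.Tru.compareL (μ := mu6 μ) (l := l) hb hcn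
  have hsz : ∀ (n n' : ℕ) [NeZero (2 * n)] [NeZero (2 * n')], 2 ^ (r + 2) * a0 ≤ n →
      2 ^ (r + 2) * a0 ≤ n' → |AA (mu6 μ) w R W (F6 H) (2 * n) (2 * n') - AA (mu6 μ) w R W (F6 H) (2 * m) (2 * m)| ≤ 12 * s ^ 2 ^ r := by
    intro n n' _ _ hn hn'
    unfold AA
    refine XE_size (μ := mu6 μ) hb hsy ha0 hs0 hs hcr (W := W) (by omega)
      (H := fun V => HN R (F6 H) V * Run7.h182.Tru.PW w W V) ?_ ?_ ?_ hn hn' hm
    · exact (HN_bm hFbm).1.mul (Run7.h182.Tru.PW_bm hb W).1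
    · intro V
      rw [abs_mul, abs_of_pos (Run7.h182.Tru.PW_pos W V)]
      exact mul_le_one₀ (hF1 _) (Run7.h182.Tru.PW_pos W V).le (Run7.h182.Tru.PW_le W V)
    · intro V V' hV
      have hlw := HN_lw hFR
      rw [← hW] at hlw
      simp only
      rw [hlw V V' fun e h1 h2 => hV e (by omega) (by omega),
        Run7.h182.Tru.PW_lw W V V' fun e h1 h2 => hV e h1 h2]
  obtain ⟨E0, hE0⟩ : ∃ E0 : ℝ, E0 = (N : ℝ) ^ ((2 * R + 1) ^ 2) * s ^ 2 ^ r := ⟨_, rfl⟩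
  have hE0p : 0 < E0 := by rw [hE0]; positivity
  have hlim : Tendsto (fun j : ℕ => N * ρ ^ j) atTop (𝓝 0) := by
    have := (tendsto_pow_atTop_nhds_zero_of_lt_one hρ0 hρ1).const_mul (N : ℝ)
    rwa [mul_zero] at this
  obtain ⟨n2, hn2⟩ := eventually_atTop.1
    (hlim.eventually_le_const (show 0 < min (1 / 2) (E0 / 4) by positivity))
  have hT := hν.lim H hH
  have hT2 : Tendsto (fun p' : ℕ × ℕ => |expect μ k β
      (fun U : Link (2 * (p'.1 + 1)) (2 * (p'.2 + 1)) l → SU N => H (per U)) -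
        AA (mu6 μ) w R W (F6 H) (2 * m) (2 * m) / p|) atTop (𝓝 |∫ V, H V ∂ν - AA (mu6 μ) w R W (F6 H) (2 * m) (2 * m) / p|) :=
    (hT.sub_const _).abs
  refine le_of_tendsto hT2 ?_
  obtain ⟨M, hM⟩ : ∃ M, M = 2 ^ (r + 2) * a0 + n2 + W * W + W + 1 := ⟨_, rfl⟩
  filter_upwards [eventually_ge_atTop (M, M)] with p' hp'
  have g1 : M ≤ p'.1 := hp'.1
  have g2 : M ≤ p'.2 := hp'.2
  rw [expect_eq μ k β hH, ← hw, XT_win hb hFbm hFR]
  have harea : n2 ≤ (2 * (p'.1 + 1)) * (2 * (p'.2 + 1)) - W * W := by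
    have h1 : (n2 + W * W) * 1 ≤ (2 * (p'.1 + 1)) * (2 * (p'.2 + 1)) :=
      Nat.mul_le_mul (by omega) (by omega)
    omega
  have h1 := hn2 _ harea
  have h2 := hcmp W (2 * (p'.1 + 1)) (2 * (p'.2 + 1)) (by omega) (by omega)
    (h1.trans (min_le_left _ _)) (HN R (F6 H)) 1 (HN_bm hFbm) (fun V => hF1 _)
    (by rw [hW]; exact HN_lw hFR)
  rw [hBe _ _ (by omega) (by omega)] at h2
  have h3 := hsz (p'.1 + 1) (p'.2 + 1) (by omega) (by omega)
  have h4 : |AA (mu6 μ) w R W (F6 H) (2 * (p'.1 + 1)) (2 * (p'.2 + 1)) / p -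
      AA (mu6 μ) w R W (F6 H) (2 * m) (2 * m) / p| ≤ 12 * E0 := by
    rw [← sub_div, abs_div, abs_of_pos hp0, div_le_iff₀ hp0, hE0, hp]
    refine h3.trans (le_of_eq ?_)
    field_simp
  have h5 := h1.trans (min_le_right _ _)
  have h6' : TW.XE (mu6 μ) w (fun U : Pool.Agent.Run7.h897.TW.Lk (2 * (p'.1 + 1))
      (2 * (p'.2 + 1)) l → S6 N => HN R (F6 H) (Run7.h182.Tru.rd U) *
        Run7.h182.Tru.PW w W (Run7.h182.Tru.rd U)) =
      AA (mu6 μ) w R W (F6 H) (2 * (p'.1 + 1)) (2 * (p'.2 + 1)) := rfl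
  rw [h6'] at h2
  have h7 := abs_sub_le (TW.XT (mu6 μ) w (fun U : Pool.Agent.Run7.h897.TW.Lk (2 * (p'.1 + 1))
      (2 * (p'.2 + 1)) l → S6 N => HN R (F6 H) (Run7.h182.Tru.rd U)))
    (AA (mu6 μ) w R W (F6 H) (2 * (p'.1 + 1)) (2 * (p'.2 + 1)) / p) (AA (mu6 μ) w R W (F6 H) (2 * m) (2 * m) / p)
  have h8 : 48 * (N : ℝ) ^ ((2 * R + 1) ^ 2) * s ^ 2 ^ r = 48 * E0 := by rw [hE0]; ring
  rw [h8]
  linarith

end two

end

end Run7.h4.QF
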